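import Pool.Agent.H78.ZF.Bridge

universe u

namespace Pool.Agent.Results.MP_e2756a_lc.NoFiniteToOne

open Pool.Agent.H78.ZF

/-- In every model `(M, E)` of ZF, there is no infinite set `A` which injects into the power set
of `omega` and for which there is a finite-to-one function from the set of all permutations of
`A` to `A`. -/
theorem result {M : Type u} (E : M → M → Prop) (hM : IsZFModel E) :
    ¬ ∃ A w P g S F : M, IsOmega E w ∧ IsPowerset E P w ∧ ¬ IsFiniteSet E A ∧
      IsInj E g A P ∧ IsSym E S A ∧ IsFiniteToOne E F S A := by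
  let inst : ZFM M := ⟨E, hM⟩
  rintro ⟨A, w, P, g, S, F, hw, hP, hA, hg, hS, hF⟩
  have hw' : w = omega := (isOmega_iff w).1 hw
  subst hw'
  have hP' : P = pow omega := (isPowerset_iff P omega).1 hP
  subst hP'
  have hS' : S = sym A := (isSym_iff S A).1 hS
  subst hS'
  have hA' : ¬ FinM A := fun h => hA ((isFiniteSet_iff A).2 h)
  exact main hA' ((isInj_iff g A (pow omega)).1 hg) (ftoSym_of F A hF)

end Pool.Agent.Results.MP_e2756a_lc.NoFiniteToOne
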